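import Pool.Agent.H337R2.LZ.Z4
import Pool.Agent.H337R2.Form

/-!
# The theorem on four independent odd zeta values in the words of the pages on multiple zeta values

`X` is the explicit form: `1, ζ(3), ζ(b), ζ(c)` are linearly independent over `ℚ` for some `b ∈ {5, 7}` and some odd `c`,
`b < c ≤ 63`.
-/

open Pool.Agent.H337R2 Pool.Agent.H447R2.MZ

namespace Pool.Agent.Run7.h697.TP

/-- the explicit form -/
def X : Prop := ∃ b c : ℕ, (b = 5 ∨ b = 7) ∧ Odd c ∧ b < c ∧ c ≤ 63 ∧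
  LinearIndependent ℚ ![(1 : ℝ), zr 3, zr b, zr c]

lemma rel {b c : ℕ} (h : LinearIndependent ℚ ![(1 : ℝ), zr 3, zr b, zr c]) (x y z w : ℚ)
    (e : (x : ℝ) + y * zr 3 + z * zr b + w * zr c = 0) : x = 0 ∧ y = 0 ∧ z = 0 ∧ w = 0 := by
  rw [Fintype.linearIndependent_iff] at h
  have h1 := h ![x, y, z, w] (by
    rw [Fin.sum_univ_four]
    simp only [Matrix.cons_val_zero, Matrix.cons_val_one, Matrix.cons_val, Rat.smul_def]
    linarith)
  exact ⟨by simpa using h1 0, by simpa using h1 1, by simpa using h1 2, by simpa using h1 3⟩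

lemma zr_three : Pool.Agent.H447R2.MZ.z3 = zr 3 := rfl

/-- directness of `Z_0 + Z_3 + ℚ ζ(b) + ℚ ζ(c)` -/
theorem direct_of {b c : ℕ} (h : LinearIndependent ℚ ![(1 : ℝ), zr 3, zr b, zr c])
    {x0 x3 xb xc : ℝ} (h0 : x0 ∈ Zs 0) (h3 : x3 ∈ Zs 3) (hb : xb ∈ Submodule.span ℚ {zr b})
    (hc : xc ∈ Submodule.span ℚ {zr c}) (e : x0 + x3 + xb + xc = 0) : x0 = 0 ∧ x3 = 0 ∧ xb = 0 ∧ xc = 0 := by
  obtain ⟨q0, rfl⟩ := Zs_zero h0
  obtain ⟨q3, rfl⟩ := Pool.Agent.LZ.Z4.Zs_three h3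
  obtain ⟨qb, rfl⟩ := Submodule.mem_span_singleton.1 hb
  obtain ⟨qc, rfl⟩ := Submodule.mem_span_singleton.1 hc
  rw [Rat.smul_def, Rat.smul_def, zr_three] at e
  obtain ⟨r0, r3, rb, rc⟩ := rel h q0 q3 qb qc e
  rw [r0, r3, rb, rc]
  simp

/-- the words of the frozen statement -/
theorem direct_seq {b c : ℕ} (hb7 : b = 5 ∨ b = 7) (hbc : b < c)
    (h : LinearIndependent ℚ ![(1 : ℝ), zr 3, zr b, zr c])
    (z : ℕ → ℝ) (h0 : z 0 ∈ Zs 0) (h3 : z 3 ∈ Zs 3) (hb : z b ∈ Submodule.span ℚ {zr b})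
    (hc : z c ∈ Submodule.span ℚ {zr c}) (ho : ∀ j ≤ c, j ≠ 0 → j ≠ 3 → j ≠ b → j ≠ c → z j = 0)
    (e : ∑ j ∈ Finset.range (c + 1), z j = 0) : ∀ j ≤ c, z j = 0 := by
  have hsub : ({0, 3, b, c} : Finset ℕ) ⊆ Finset.range (c + 1) := by
    intro j hj
    simp only [Finset.mem_insert, Finset.mem_singleton] at hj
    rw [Finset.mem_range]
    omega
  rw [← Finset.sum_subset hsub] at e
  · rw [Finset.sum_insert, Finset.sum_insert, Finset.sum_insert, Finset.sum_singleton] at e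
    · obtain ⟨r0, r3, rb, rc⟩ := direct_of h h0 h3 hb hc (by linarith)
      intro j hj
      by_cases j0 : j = 0
      · rw [j0]; exact r0
      by_cases j3 : j = 3
      · rw [j3]; exact r3
      by_cases jb : j = b
      · rw [jb]; exact rb
      by_cases jc : j = c
      · rw [jc]; exact rc
      exact ho j hj j0 j3 jb jc
    · simp only [Finset.mem_singleton]; omega
    · simp only [Finset.mem_insert, Finset.mem_singleton]; omega
    · simp only [Finset.mem_insert, Finset.mem_singleton]; omega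
  · intro j hj hj'
    rw [Finset.mem_range] at hj
    simp only [Finset.mem_insert, Finset.mem_singleton, not_or] at hj'
    exact ho j (by omega) hj'.1 hj'.2.1 hj'.2.2.1 hj'.2.2.2

/-- the relations between `1, ζ(3), ζ(5), ..., ζ(63)` form a space of dimension at most `28` -/
theorem relations_le {v : Fin 32 → ℝ} (h : 4 ≤ Module.finrank ℚ (Submodule.span ℚ (Set.range v))) :
    Module.finrank ℚ (LinearMap.ker (Fintype.linearCombination ℚ v)) ≤ 28 := by
  have h1 := LinearMap.finrank_range_add_finrank_ker (Fintype.linearCombination ℚ v)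
  rw [Fintype.range_linearCombination, Module.finrank_fin_fun] at h1
  omega

end Pool.Agent.Run7.h697.TP
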